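import Pool.Agent.Helper10.Qc.Stmts

set_option autoImplicit false

/-!
# The sums over the positions are finite sums
-/

namespace Pool.Agent.Helper10.Qc

open Pool.Agent.Helper19.Qh Pool.Agent.Helper19.Qc

def lstR : List ℤ := [-4, -3, -2, -1, 0, 1, 2, 3, 4]

def lstA : List (ℤ × ℤ × ℤ × ℤ) :=
  lstR.flatMap fun a => lstR.flatMap fun b => lstR.flatMap fun c => lstR.map fun d => (a, b, c, d)

def lstN (x : ℤ × ℤ × ℤ × ℤ) : ℤ :=
  x.1 * x.1 + x.2.1 * x.2.1 + x.2.2.1 * x.2.2.1 + x.2.2.2 * x.2.2.2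

def lstP (N : ℤ) (x : ℤ × ℤ × ℤ × ℤ) : Bool :=
  decide ((x.2.1 - x.1) % 2 = 0 ∧ (x.2.2.1 - x.1) % 2 = 0 ∧ (x.2.2.2 - x.1) % 2 = 0 ∧ lstN x ≤ N)

/-- twice the Hurwitz integers of small norm -/
def lstL (N : ℤ) : List (ℤ × ℤ × ℤ × ℤ) := lstA.filter (lstP N)

def lstC (t g0 g1 g2 g3 : ℤ) : ℕ :=
  (t + 32 * (g0 + 16) + 1024 * (g1 + 16) + 32768 * (g2 + 16) + 1048576 * (g3 + 16)).toNat

def lstC3 (s t : ℤ) (x : ℤ × ℤ × ℤ × ℤ) : ℕ :=
  lstC 3 (x.1 + s * x.2.1 + t * x.2.2.1) (x.2.1 - s * x.1 - t * x.2.2.2)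
    (x.2.2.1 + s * x.2.2.2 - t * x.1) (x.2.2.2 - s * x.2.2.1 + t * x.2.1)

theorem lst_WU : WU = (lstL 12).map (fun x => lstC 1 (3 * x.1) (3 * x.2.1) (3 * x.2.2.1)
      (3 * x.2.2.2)) ++
    (lstL 8).map (fun x => lstC 2 (3 * x.1) (3 * x.2.1) (3 * x.2.2.1) (3 * x.2.2.2)) ++
    (lstL 16).map (lstC3 1 1) ++ (lstL 16).map (lstC3 1 (-1)) ++ (lstL 16).map (lstC3 (-1) 1) ++
    (lstL 16).map (lstC3 (-1) (-1)) := by
  decide +kernel

theorem lst_dec1 : ∀ x ∈ lstL 12,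
    d32 (lstC 1 (3 * x.1) (3 * x.2.1) (3 * x.2.2.1) (3 * x.2.2.2)) 0 = 1 ∧
    (d32 (lstC 1 (3 * x.1) (3 * x.2.1) (3 * x.2.2.1) (3 * x.2.2.2)) 1 : ℤ) = 3 * x.1 + 16 ∧
    (d32 (lstC 1 (3 * x.1) (3 * x.2.1) (3 * x.2.2.1) (3 * x.2.2.2)) 2 : ℤ) = 3 * x.2.1 + 16 ∧
    (d32 (lstC 1 (3 * x.1) (3 * x.2.1) (3 * x.2.2.1) (3 * x.2.2.2)) 3 : ℤ) = 3 * x.2.2.1 + 16 ∧
    (d32 (lstC 1 (3 * x.1) (3 * x.2.1) (3 * x.2.2.1) (3 * x.2.2.2)) 4 : ℤ) =
      3 * x.2.2.2 + 16 := by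
  decide +kernel

theorem lst_dec2 : ∀ x ∈ lstL 8,
    d32 (lstC 2 (3 * x.1) (3 * x.2.1) (3 * x.2.2.1) (3 * x.2.2.2)) 0 = 2 ∧
    (d32 (lstC 2 (3 * x.1) (3 * x.2.1) (3 * x.2.2.1) (3 * x.2.2.2)) 1 : ℤ) = 3 * x.1 + 16 ∧
    (d32 (lstC 2 (3 * x.1) (3 * x.2.1) (3 * x.2.2.1) (3 * x.2.2.2)) 2 : ℤ) = 3 * x.2.1 + 16 ∧
    (d32 (lstC 2 (3 * x.1) (3 * x.2.1) (3 * x.2.2.1) (3 * x.2.2.2)) 3 : ℤ) = 3 * x.2.2.1 + 16 ∧
    (d32 (lstC 2 (3 * x.1) (3 * x.2.1) (3 * x.2.2.1) (3 * x.2.2.2)) 4 : ℤ) =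
      3 * x.2.2.2 + 16 := by
  decide +kernel

theorem lst_dec3 : ∀ s ∈ [(1 : ℤ), -1], ∀ t ∈ [(1 : ℤ), -1], ∀ x ∈ lstL 16,
    d32 (lstC3 s t x) 0 = 3 ∧
    (d32 (lstC3 s t x) 1 : ℤ) = x.1 + s * x.2.1 + t * x.2.2.1 + 16 ∧
    (d32 (lstC3 s t x) 2 : ℤ) = x.2.1 - s * x.1 - t * x.2.2.2 + 16 ∧
    (d32 (lstC3 s t x) 3 : ℤ) = x.2.2.1 + s * x.2.2.2 - t * x.1 + 16 ∧
    (d32 (lstC3 s t x) 4 : ℤ) = x.2.2.2 - s * x.2.2.1 + t * x.2.1 + 16 := by
  decide +kernel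

theorem lst_nd12 : (lstL 12).Nodup := by decide +kernel

theorem lst_nd8 : (lstL 8).Nodup := by decide +kernel

theorem lst_nd16 : (lstL 16).Nodup := by decide +kernel

/-- the quaternion -/
noncomputable def lstF (x : ℤ × ℤ × ℤ × ℤ) : Q :=
  ⟨(x.1 : ℝ) / 2, (x.2.1 : ℝ) / 2, (x.2.2.1 : ℝ) / 2, (x.2.2.2 : ℝ) / 2⟩

noncomputable def lstG (s t : ℤ) (x : ℤ × ℤ × ℤ × ℤ) : Q :=
  ⟨(x.1 + s * x.2.1 + t * x.2.2.1 : ℝ) / 6, (x.2.1 - s * x.1 - t * x.2.2.2 : ℝ) / 6,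
    (x.2.2.1 + s * x.2.2.2 - t * x.1 : ℝ) / 6, (x.2.2.2 - s * x.2.2.1 + t * x.2.1 : ℝ) / 6⟩

theorem lst_memR (a : ℤ) : a ∈ lstR ↔ -4 ≤ a ∧ a ≤ 4 := by
  unfold lstR
  simp only [List.mem_cons, List.not_mem_nil, or_false]
  omega

theorem lst_sq {a s : ℤ} (h : a * a ≤ s) (hs : s ≤ 16) : -4 ≤ a ∧ a ≤ 4 := by
  constructor <;> nlinarith

theorem lst_mem {N : ℤ} (hN : N ≤ 16) (x : ℤ × ℤ × ℤ × ℤ) : x ∈ lstL N ↔
    (2 : ℤ) ∣ x.2.1 - x.1 ∧ (2 : ℤ) ∣ x.2.2.1 - x.1 ∧ (2 : ℤ) ∣ x.2.2.2 - x.1 ∧ lstN x ≤ N := by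
  obtain ⟨a, b, c, d⟩ := x
  unfold lstL lstP
  rw [List.mem_filter, decide_eq_true_eq]
  have hA : (a, b, c, d) ∈ lstA ↔ a ∈ lstR ∧ b ∈ lstR ∧ c ∈ lstR ∧ d ∈ lstR := by
    unfold lstA
    simp only [List.mem_flatMap, List.mem_map, Prod.mk.injEq]
    constructor
    · rintro ⟨a', ha, b', hb, c', hc, d', hd, rfl, rfl, rfl, rfl⟩
      exact ⟨ha, hb, hc, hd⟩
    · rintro ⟨ha, hb, hc, hd⟩
      exact ⟨a, ha, b, hb, c, hc, d, hd, rfl, rfl, rfl, rfl⟩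
  rw [hA]
  simp only [lst_memR, Int.dvd_iff_emod_eq_zero]
  constructor
  · rintro ⟨-, h⟩
    exact h
  · rintro ⟨h1, h2, h3, h4⟩
    refine ⟨?_, h1, h2, h3, h4⟩
    unfold lstN at h4
    simp only at h4
    have ha := mul_self_nonneg a
    have hb := mul_self_nonneg b
    have hc := mul_self_nonneg c
    have hd := mul_self_nonneg d
    exact ⟨lst_sq (s := N) (by linarith) hN, lst_sq (s := N) (by linarith) hN,
      lst_sq (s := N) (by linarith) hN, lst_sq (s := N) (by linarith) hN⟩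

theorem lst_norm (x : ℤ × ℤ × ℤ × ℤ) : 4 * ‖lstF x‖ ^ 2 = (lstN x : ℝ) := by
  rw [q_norm_sq]
  unfold lstF lstN
  push_cast
  ring

theorem lst_inj : Function.Injective lstF := by
  intro x y h
  obtain ⟨a, b, c, d⟩ := x
  obtain ⟨a', b', c', d'⟩ := y
  have h1 : (lstF (a, b, c, d)).re = (lstF (a', b', c', d')).re := by rw [h]
  have h2 : (lstF (a, b, c, d)).imI = (lstF (a', b', c', d')).imI := by rw [h]
  have h3 : (lstF (a, b, c, d)).imJ = (lstF (a', b', c', d')).imJ := by rw [h]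
  have h4 : (lstF (a, b, c, d)).imK = (lstF (a', b', c', d')).imK := by rw [h]
  simp only [lstF] at h1 h2 h3 h4
  have e1 : (a : ℝ) = a' := by linarith
  have e2 : (b : ℝ) = b' := by linarith
  have e3 : (c : ℝ) = c' := by linarith
  have e4 : (d : ℝ) = d' := by linarith
  have e1' : a = a' := by exact_mod_cast e1
  have e2' : b = b' := by exact_mod_cast e2
  have e3' : c = c' := by exact_mod_cast e3
  have e4' : d = d' := by exact_mod_cast e4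
  rw [e1', e2', e3', e4']

theorem lst_tsum (hz : ST_HZ) (f : Q → ENNReal) (N : ℤ) (hN : N ≤ 16) (hnd : (lstL N).Nodup)
    (hf0 : ∀ q ∈ HO, (N : ℝ) < 4 * ‖q‖ ^ 2 → f q = 0) :
    ∑' b : HO, f b = ((lstL N).map fun x => f (lstF x)).sum := by
  classical
  have h1 : ∑' b : HO, f b = ∑' q : Q, (HO : Set Q).indicator f q :=
    tsum_subtype (HO : Set Q) f
  rw [h1, tsum_eq_sum (s := (lstL N).toFinset.image lstF)]
  · rw [Finset.sum_image (fun x _ y _ h => lst_inj h), ← List.sum_toFinset _ hnd]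
    refine Finset.sum_congr rfl fun x hx => ?_
    rw [List.mem_toFinset, lst_mem hN] at hx
    apply Set.indicator_of_mem
    change lstF x ∈ HO
    rw [hz]
    exact ⟨![x.1, x.2.1, x.2.2.1, x.2.2.2], hx.1, hx.2.1, hx.2.2.1, rfl⟩
  · intro q hq
    by_cases hqO : q ∈ HO
    · rw [Set.indicator_of_mem (show q ∈ (HO : Set Q) from hqO)]
      apply hf0 q hqO
      obtain ⟨x, h2, h3, h4, h5⟩ := (hz q).1 hqO
      by_contra hc
      push Not at hc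
      apply hq
      rw [Finset.mem_image]
      have h6 : q = lstF (x 0, x 1, x 2, x 3) := h5
      refine ⟨(x 0, x 1, x 2, x 3), ?_, h6.symm⟩
      rw [List.mem_toFinset, lst_mem hN]
      refine ⟨h2, h3, h4, ?_⟩
      rw [h6, lst_norm] at hc
      exact_mod_cast hc
    · exact Set.indicator_of_notMem (show q ∉ (HO : Set Q) from hqO) _

theorem lst_t3 (hz : ST_HZ) (g : ℕ → Q → ENNReal) (h3 : ∀ β, 5 / 3 ≤ ‖β‖ ^ 2 → g 3 β = 0)
    (r : Q) (s t : ℤ) (hs : s * s = 1) (ht : t * t = 1) (q0 : r.re = 1) (q1 : r.imI = s)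
    (q2 : r.imJ = t) (q3 : r.imK = 0) :
    ∑' b : HO, g 3 (r⁻¹ * b) = ((lstL 16).map fun x => g 3 (lstG s t x)).sum := by
  have hsR : (s : ℝ) * s = 1 := by exact_mod_cast hs
  have htR : (t : ℝ) * t = 1 := by exact_mod_cast ht
  have hn : ‖r‖ ^ 2 = 3 := by
    rw [q_norm_sq, q0, q1, q2, q3]
    nlinarith
  have hr0 : r ≠ 0 := by
    intro h0
    rw [h0] at hn
    norm_num at hn
  rw [lst_tsum hz (fun q => g 3 (r⁻¹ * q)) 16 le_rfl lst_nd16]
  · congr 1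
    apply List.map_congr_left
    intro x _
    congr 1
    rw [inv_mul_eq_iff_eq_mul₀ hr0]
    apply Quaternion.ext <;>
      simp only [Quaternion.re_mul, Quaternion.imI_mul, Quaternion.imJ_mul,
        Quaternion.imK_mul, q0, q1, q2, q3] <;> simp only [lstF, lstG]
    · linear_combination (-(x.1 : ℝ) / 6) * hsR + (-(x.1 : ℝ) / 6) * htR
    · linear_combination (-(x.2.1 : ℝ) / 6) * hsR + (-(x.2.1 : ℝ) / 6) * htR
    · linear_combination (-(x.2.2.1 : ℝ) / 6) * hsR + (-(x.2.2.1 : ℝ) / 6) * htR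
    · linear_combination (-(x.2.2.2 : ℝ) / 6) * hsR + (-(x.2.2.2 : ℝ) / 6) * htR
  · intro q hq h
    apply h3
    obtain ⟨M, hM⟩ := HO_norm_sq hq
    rw [hM] at h
    have h4 : (4 : ℝ) < M := by push_cast at h; linarith
    have h5 : 5 ≤ M := by
      have : 4 < M := by exact_mod_cast h4
      omega
    have h6 : (5 : ℝ) ≤ M := by exact_mod_cast h5
    rw [norm_mul, norm_inv, mul_pow, inv_pow, hn, hM]
    linarith

theorem st_LST (hz : ST_HZ) : ST_LST := by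
  intro g h1 h2 h3
  have e1 : ∑' b : HO, g 1 b = ((lstL 12).map fun x => g 1 (lstF x)).sum := by
    apply lst_tsum hz (g 1) 12 (by norm_num) lst_nd12
    intro q hq h
    apply h1
    obtain ⟨M, hM⟩ := HO_norm_sq hq
    rw [hM] at h ⊢
    have h4 : (3 : ℝ) < M := by push_cast at h; linarith
    have h5 : 4 ≤ M := by
      have : 3 < M := by exact_mod_cast h4
      omega
    exact_mod_cast h5
  have e2 : ∑' b : HO, g 2 b = ((lstL 8).map fun x => g 2 (lstF x)).sum := by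
    apply lst_tsum hz (g 2) 8 (by norm_num) lst_nd8
    intro q hq h
    apply h2
    obtain ⟨M, hM⟩ := HO_norm_sq hq
    rw [hM] at h ⊢
    have h4 : (2 : ℝ) < M := by push_cast at h; linarith
    have h5 : 3 ≤ M := by
      have : 2 < M := by exact_mod_cast h4
      omega
    exact_mod_cast h5
  rw [e1, e2, lst_t3 hz g h3 (rho 2) 1 1 (by norm_num) (by norm_num) rfl
      (by simp [rho]) (by simp [rho]) rfl,
    lst_t3 hz g h3 (rho 3) 1 (-1) (by norm_num) (by norm_num) rfl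
      (by simp [rho]) (by simp [rho]) rfl,
    lst_t3 hz g h3 (rho 4) (-1) 1 (by norm_num) (by norm_num) rfl
      (by simp [rho]) (by simp [rho]) rfl,
    lst_t3 hz g h3 (rho 5) (-1) (-1) (by norm_num) (by norm_num) rfl
      (by simp [rho]) (by simp [rho]) rfl, lst_WU]
  simp only [List.map_append, List.sum_append, List.map_map]
  have key1 : ∀ x ∈ lstL 12, g 1 (lstF x) = ((fun c => g (d32 c 0) (bet c)) ∘
      fun x : ℤ × ℤ × ℤ × ℤ => lstC 1 (3 * x.1) (3 * x.2.1) (3 * x.2.2.1) (3 * x.2.2.2)) x := by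
    intro x hx
    obtain ⟨d0, d1, d2, d3, d4⟩ := lst_dec1 x hx
    have d1' := congrArg (fun z : ℤ => (z : ℝ)) d1
    have d2' := congrArg (fun z : ℤ => (z : ℝ)) d2
    have d3' := congrArg (fun z : ℤ => (z : ℝ)) d3
    have d4' := congrArg (fun z : ℤ => (z : ℝ)) d4
    push_cast at d1' d2' d3' d4'
    rw [Function.comp_apply, d0]
    congr 1
    unfold bet lstF
    apply Quaternion.ext
    · simp only
      rw [d1']; ring
    · simp only
      rw [d2']; ring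
    · simp only
      rw [d3']; ring
    · simp only
      rw [d4']; ring
  have key2 : ∀ x ∈ lstL 8, g 2 (lstF x) = ((fun c => g (d32 c 0) (bet c)) ∘
      fun x : ℤ × ℤ × ℤ × ℤ => lstC 2 (3 * x.1) (3 * x.2.1) (3 * x.2.2.1) (3 * x.2.2.2)) x := by
    intro x hx
    obtain ⟨d0, d1, d2, d3, d4⟩ := lst_dec2 x hx
    have d1' := congrArg (fun z : ℤ => (z : ℝ)) d1
    have d2' := congrArg (fun z : ℤ => (z : ℝ)) d2
    have d3' := congrArg (fun z : ℤ => (z : ℝ)) d3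
    have d4' := congrArg (fun z : ℤ => (z : ℝ)) d4
    push_cast at d1' d2' d3' d4'
    rw [Function.comp_apply, d0]
    congr 1
    unfold bet lstF
    apply Quaternion.ext
    · simp only
      rw [d1']; ring
    · simp only
      rw [d2']; ring
    · simp only
      rw [d3']; ring
    · simp only
      rw [d4']; ring
  have key3 : ∀ s ∈ [(1 : ℤ), -1], ∀ t ∈ [(1 : ℤ), -1], ∀ x ∈ lstL 16,
      g 3 (lstG s t x) = ((fun c => g (d32 c 0) (bet c)) ∘ lstC3 s t) x := by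
    intro s hs t ht x hx
    obtain ⟨d0, d1, d2, d3, d4⟩ := lst_dec3 s hs t ht x hx
    have d1' := congrArg (fun z : ℤ => (z : ℝ)) d1
    have d2' := congrArg (fun z : ℤ => (z : ℝ)) d2
    have d3' := congrArg (fun z : ℤ => (z : ℝ)) d3
    have d4' := congrArg (fun z : ℤ => (z : ℝ)) d4
    push_cast at d1' d2' d3' d4'
    rw [Function.comp_apply, d0]
    congr 1
    unfold bet lstG
    apply Quaternion.ext
    · simp only
      rw [d1']; ring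
    · simp only
      rw [d2']; ring
    · simp only
      rw [d3']; ring
    · simp only
      rw [d4']; ring
  rw [List.map_congr_left key1, List.map_congr_left key2,
    List.map_congr_left (key3 1 (by simp) 1 (by simp)),
    List.map_congr_left (key3 1 (by simp) (-1) (by simp)),
    List.map_congr_left (key3 (-1) (by simp) 1 (by simp)),
    List.map_congr_left (key3 (-1) (by simp) (-1) (by simp))]

end Pool.Agent.Helper10.Qc
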